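import Pool.Agent.Q290.Rwre.Bound

/-!
# MP_c9886c_pr, Q1: the annealed mean of a transient random walk in random environment

We prove that `E_0^μ[Z_n] > v_μ n` for every `n ≥ 1`, for every non-degenerate uniformly elliptic
one-site law `α` with `⟨ρ⟩ < 1`, in particular for every `s`-transient `α` with `s > 1`.
-/

namespace Pool.Agent.Results.MP_c9886c_pr.MeanAboveSpeed

open MeasureTheory

/-- A step of `Z` to the right (`true`, `+1`) or to the left (`false`, `-1`). -/
def step (b : Bool) : ℤ := if b then 1 else -1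

/-- The position, after the first `k` of the `n` steps `w`, of the walk started at `x`. -/
def position {n : ℕ} (x : ℤ) (w : Fin n → Bool) (k : ℕ) : ℤ :=
  x + ∑ i ∈ Finset.univ.filter (fun i : Fin n => (i : ℕ) < k), step (w i)

/-- The quenched probability `P_x^ω` of the steps `w`: from `y` the chain moves to `y + 1` with
probability `ω y` and to `y - 1` with probability `1 - ω y`. -/
noncomputable def quenchedProb {n : ℕ} (ω : ℤ → ℝ) (x : ℤ) (w : Fin n → Bool) : ℝ :=
  ∏ k : Fin n, if w k then ω (position x w k) else 1 - ω (position x w k)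

/-- The quenched mean `E_x^ω[Z_n]`. -/
noncomputable def quenchedMean (ω : ℤ → ℝ) (n : ℕ) (x : ℤ) : ℝ :=
  ∑ w : Fin n → Bool, quenchedProb ω x w * (position x w n : ℝ)

/-- The annealed mean `E_0^μ[Z_n] = ∫ E_0^ω[Z_n] μ(dω)`, `μ = α^ℤ`. -/
noncomputable def annealedMean (α : Measure ℝ) [IsProbabilityMeasure α] (n : ℕ) : ℝ :=
  ∫ ω, quenchedMean ω n 0 ∂(Measure.infinitePi fun _ : ℤ => α)

/-- `ρ = (1 - ω(0)) / ω(0)` as a function of `ω(0)`. -/
noncomputable def ρ (y : ℝ) : ℝ := (1 - y) / y

/-- `α` is non-degenerate and uniformly elliptic. -/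
structure Admissible (α : Measure ℝ) : Prop where
  nondegenerate : ∀ a : ℝ, α ≠ Measure.dirac a
  elliptic : ∃ c : ℝ, 0 < c ∧ α (Set.Icc c (1 - c)) = 1

/-- `α` is `s`-transient. -/
structure STransient (α : Measure ℝ) (s : ℝ) : Prop where
  log_neg : ∫ y, Real.log (ρ y) ∂α < 0
  moment : ∫ y, ρ y ^ s ∂α = 1
  integrable : Integrable (fun y => ρ y * max (Real.log (ρ y)) 0) α

/-- The speed `v_μ`. -/
noncomputable def speed (α : Measure ℝ) : ℝ :=
  if ∫ y, ρ y ∂α < 1 then (1 - ∫ y, ρ y ∂α) / (1 + ∫ y, ρ y ∂α) else 0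

open Pool.Agent.Q290.Rwre in
lemma annealed_eq (α : Measure ℝ) [IsProbabilityMeasure α] (n : ℕ) :
    annealedMean α n = ∫ ω, FF n ω ∂(P α) := rfl

open Pool.Agent.Q290.Rwre in
lemma ell_of {α : Measure ℝ} [IsProbabilityMeasure α] {c : ℝ} (hc : 0 < c)
    (h : α (Set.Icc c (1 - c)) = 1) : Ell α c := by
  refine ⟨hc, ?_⟩
  exact (mem_ae_iff_prob_eq_one measurableSet_Icc).mpr h

open Pool.Agent.Q290.Rwre in
lemma mean_lt_one {α : Measure ℝ} [IsProbabilityMeasure α] {c : ℝ} (hα : Ell α c) {s : ℝ}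
    (hs : 1 < s) (ht : STransient α s) : ∫ y, ρ y ∂α < 1 := by
  by_contra hcon
  push Not at hcon
  have hint : Integrable ρ α := int_rho hα
  have hints : Integrable (fun y => ρ y ^ s) α := by
    have hm : Measurable ρ := measurable_rho
    apply int_one hα (hm.pow_const s) ((1 / c) ^ s)
    intro y hy
    have h0 : 0 < y := lt_of_lt_of_le hα.1 hy.1
    have h1 : y < 1 := by linarith [hy.2, hα.1]
    have h2 : 0 ≤ ρ y := rho_nonneg h0 h1
    have h3 : ρ y ≤ 1 / c := rho_le hα.1 hy
    rw [abs_of_nonneg (Real.rpow_nonneg h2 _)]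
    exact Real.rpow_le_rpow h2 h3 (by linarith)
  have hlin : Integrable (fun y => 1 + s * (ρ y - 1)) α :=
    (integrable_const _).add ((hint.sub (integrable_const _)).const_mul s)
  have hnn : 0 ≤ᵐ[α] fun y => ρ y ^ s - (1 + s * (ρ y - 1)) := by
    filter_upwards [hα.2] with y hy
    have h0 : 0 < y := lt_of_lt_of_le hα.1 hy.1
    have h1 : y < 1 := by linarith [hy.2, hα.1]
    have h2 : 0 ≤ ρ y := rho_nonneg h0 h1
    have := one_add_mul_self_le_rpow_one_add (s := ρ y - 1) (by linarith) hs.le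
    rw [add_sub_cancel] at this
    simpa using this
  have hI : ∫ y, (ρ y ^ s - (1 + s * (ρ y - 1))) ∂α = 0 := by
    apply le_antisymm
    · have i1 : Integrable (fun y => ρ y - 1) α := hint.sub (integrable_const _)
      have i2 : Integrable (fun y => s * (ρ y - 1)) α := i1.const_mul s
      rw [integral_sub hints hlin, ht.moment, integral_add (integrable_const _) i2,
        integral_const_mul, integral_sub hint (integrable_const _)]
      simp only [integral_const, probReal_univ, smul_eq_mul, mul_one]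
      nlinarith
    · exact integral_nonneg_of_ae hnn
  have h0 := (integral_eq_zero_iff_of_nonneg_ae hnn (hints.sub hlin)).mp hI
  have hone : ∀ᵐ y ∂α, Real.log (ρ y) = 0 := by
    filter_upwards [h0, hα.2] with y hy0 hy
    have h0 : 0 < y := lt_of_lt_of_le hα.1 hy.1
    have h1 : y < 1 := by linarith [hy.2, hα.1]
    have h2 : 0 ≤ ρ y := rho_nonneg h0 h1
    have h3 : ρ y = 1 := by
      by_contra hne
      have := one_add_mul_self_lt_rpow_one_add (s := ρ y - 1) (by linarith)
        (sub_ne_zero.mpr hne) hs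
      rw [add_sub_cancel] at this
      simp only [Pi.zero_apply] at hy0
      linarith
    rw [h3, Real.log_one]
  have hlog := ht.log_neg
  rw [integral_congr_ae hone] at hlog
  simp at hlog

open Pool.Agent.Q290.Rwre in
lemma main {α : Measure ℝ} [IsProbabilityMeasure α] (hα : Admissible α)
    (hm : ∫ y, ρ y ∂α < 1) (n : ℕ) (hn : 1 ≤ n) : speed α * n < annealedMean α n := by
  obtain ⟨c, hc, h1⟩ := hα.elliptic
  obtain ⟨k, rfl⟩ : ∃ k, n = k + 1 := ⟨n - 1, by omega⟩
  rw [speed, if_pos hm]
  exact mean_gt (ell_of hc h1) hα.nondegenerate hm k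

/-- **Theorem.** (1) For every non-degenerate uniformly elliptic one-site law `α` with
`⟨ρ⟩ < 1`, the annealed mean satisfies `E_0^μ[Z_n] > v_μ n` for every `n ≥ 1`.
(2) In particular this holds for every such `α` which is `s`-transient for some `s > 1`, and
then `E_0^μ[Z_n] ≠ v_μ n` for infinitely many `n` (indeed for all `n ≥ 1`). -/
theorem result :
    (∀ (α : Measure ℝ) [IsProbabilityMeasure α], Admissible α → ∫ y, ρ y ∂α < 1 →
      ∀ n : ℕ, 1 ≤ n → speed α * n < annealedMean α n) ∧
    (∀ (s : ℝ), 1 < s → ∀ (α : Measure ℝ) [IsProbabilityMeasure α], Admissible α →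
      STransient α s →
      (∀ n : ℕ, 1 ≤ n → speed α * n < annealedMean α n) ∧
      {n : ℕ | annealedMean α n ≠ speed α * n}.Infinite) := by
  refine ⟨fun α _ hα hm n hn => main hα hm n hn, fun s hs α _ hα ht => ?_⟩
  obtain ⟨c, hc, h1⟩ := hα.elliptic
  have hm := mean_lt_one (ell_of hc h1) hs ht
  have hgt := fun n hn => main hα hm n hn
  refine ⟨hgt, ?_⟩
  apply Set.infinite_of_not_bddAbove
  rintro ⟨N, hN⟩
  have := hN (show N + 1 ∈ {n : ℕ | annealedMean α n ≠ speed α * n} from
    (hgt (N + 1) (by omega)).ne')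
  omega

end Pool.Agent.Results.MP_c9886c_pr.MeanAboveSpeed
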